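import Pool.Agent.Q240.LV.Stm

/-! Project LV, job Ex (helper204 for helper240): the explicit formula with a Gaussian. -/

set_option autoImplicit false

open Filter Topology Finset MeasureTheory

namespace Pool.Agent.Q204.LV

open Pool.Agent.Y23 (Zt mu Dec DG Lg JJ ev Lam)
open Pool.Agent.Q240.LV

/-- the Gaussian integral -/
theorem gauss (s : ℝ) (hs : 0 < s) (c d : ℂ) :
    Integrable (fun y : ℝ => Complex.exp (-(s : ℂ) * (y : ℂ) ^ 2 + c * y + d)) ∧
    ∫ y : ℝ, Complex.exp (-(s : ℂ) * (y : ℂ) ^ 2 + c * y + d) =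
      (Real.sqrt (Real.pi / s) : ℂ) * Complex.exp (d + c ^ 2 / (4 * s)) := by
  have hb : (-(s : ℂ)).re < 0 := by simpa using hs
  have hs0 : (s : ℂ) ≠ 0 := by exact_mod_cast hs.ne'
  refine ⟨integrable_cexp_quadratic (b := (s : ℂ)) (by simpa using hs) _ _, ?_⟩
  rw [integral_cexp_quadratic hb]
  have h1 : d - c ^ 2 / (4 * (-(s : ℂ))) = d + c ^ 2 / (4 * s) := by
    rw [mul_neg, div_neg, sub_neg_eq_add]
  rw [h1, neg_neg, Real.sqrt_eq_rpow, Complex.ofReal_cpow (by positivity)]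
  push_cast
  rfl

theorem sqrt_eq (s : ℝ) (hs : 0 < s) : Real.sqrt (Real.pi / s) = 2 * Real.pi / Real.sqrt (4 * Real.pi * s) := by
  have hpi := Real.pi_pos
  rw [eq_div_iff (by positivity), ← Real.sqrt_mul (by positivity)]
  have h1 : Real.pi / s * (4 * Real.pi * s) = (2 * Real.pi) ^ 2 := by
    field_simp
    ring
  rw [h1, Real.sqrt_sq (by positivity)]

/-- the test function -/
noncomputable def h (s t u : ℝ) (w : ℂ) : ℂ :=
  Complex.exp (s * (w - t * Complex.I) ^ 2 + u * (w - t * Complex.I))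

theorem h_norm (s t u : ℝ) (w : ℂ) :
    ‖h s t u w‖ = Real.exp (s * (w.re ^ 2 - (w.im - t) ^ 2) + u * w.re) := by
  unfold h
  rw [Complex.norm_exp]
  congr 1
  rw [Complex.add_re, Complex.re_ofReal_mul, Complex.re_ofReal_mul, pow_two, Complex.mul_re]
  simp only [Complex.sub_re, Complex.sub_im, Complex.mul_re, Complex.mul_im, Complex.ofReal_re,
    Complex.ofReal_im, Complex.I_re, Complex.I_im]
  ring

theorem h_dec (s t u : ℝ) (hs : 0 ≤ s) (hu : 0 ≤ u) :
    Dec (h s t u) (Real.exp (s + u + s * t ^ 2)) (s / 2) := by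
  constructor
  · unfold h
    fun_prop
  · intro w hw
    rw [h_norm, ← Real.exp_add]
    apply Real.exp_le_exp.2
    have h1 : w.re ^ 2 ≤ 1 := by
      rw [← sq_abs]
      exact pow_le_one₀ (abs_nonneg _) hw
    have h2 : u * w.re ≤ u * 1 := mul_le_mul_of_nonneg_left ((le_abs_self _).trans hw) hu
    have h3 : w.im ^ 2 / 2 - t ^ 2 ≤ (w.im - t) ^ 2 := by nlinarith [sq_nonneg (w.im - 2 * t)]
    have h4 : s * (w.im ^ 2 / 2 - t ^ 2) ≤ s * (w.im - t) ^ 2 := mul_le_mul_of_nonneg_left h3 hs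
    have h5 : s * w.re ^ 2 ≤ s * 1 := mul_le_mul_of_nonneg_left h1 hs
    nlinarith

theorem mk0 (y : ℝ) : (⟨0, y⟩ : ℂ) = y * Complex.I := by
  apply Complex.ext <;> simp

/-- the two Gaussian Fourier transforms -/
theorem four1 (s t u L : ℝ) (hs : 0 < s) :
    Integrable (fun y : ℝ => Complex.exp (-(L : ℂ) * (1 / 2 + ⟨0, y⟩)) * h s t u ⟨0, y⟩) ∧
    ∫ y : ℝ, Complex.exp (-(L : ℂ) * (1 / 2 + ⟨0, y⟩)) * h s t u ⟨0, y⟩ =
      2 * Real.pi * ((Real.exp (-(L / 2)) * Kn s (L - u) : ℝ) : ℂ) *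
        Complex.exp (-(t * L * Complex.I)) := by
  have hs0 : (s : ℂ) ≠ 0 := by exact_mod_cast hs.ne'
  obtain ⟨g1, g2⟩ := gauss s hs (2 * s * t + (u - L) * Complex.I)
    (-(L / 2) - s * t ^ 2 - u * t * Complex.I)
  have e : (fun y : ℝ => Complex.exp (-(L : ℂ) * (1 / 2 + ⟨0, y⟩)) * h s t u ⟨0, y⟩) =
      fun y : ℝ => Complex.exp (-(s : ℂ) * (y : ℂ) ^ 2 + (2 * s * t + (u - L) * Complex.I) * y +
        (-(L / 2) - s * t ^ 2 - u * t * Complex.I)) := by
    funext y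
    rw [h, ← Complex.exp_add, mk0]
    congr 1
    linear_combination ((s : ℂ) * (y - t) ^ 2) * Complex.I_sq
  rw [e]
  refine ⟨g1, ?_⟩
  rw [g2, sqrt_eq s hs, Kn]
  have e2 : (-(L / 2) - s * t ^ 2 - u * t * Complex.I : ℂ) +
      (2 * s * t + (u - L) * Complex.I) ^ 2 / (4 * s) =
      ((-(L / 2) : ℝ) : ℂ) + ((-((L - u) ^ 2 / (4 * s)) : ℝ) : ℂ) + (-(t * L * Complex.I)) := by
    push_cast
    have : (2 * (s : ℂ) * t + (u - L) * Complex.I) ^ 2 =
        4 * s ^ 2 * t ^ 2 + 4 * s * t * (u - L) * Complex.I - (u - L) ^ 2 := by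
      linear_combination ((u : ℂ) - L) ^ 2 * Complex.I_sq
    rw [this]
    field_simp
    ring
  rw [e2, Complex.exp_add, Complex.exp_add, ← Complex.ofReal_exp, ← Complex.ofReal_exp]
  push_cast
  ring

theorem four2 (s t u L : ℝ) (hs : 0 < s) :
    Integrable (fun y : ℝ => Complex.exp (-(L : ℂ) * (1 / 2 + ⟨0, y⟩)) * h s t u (-⟨0, y⟩)) ∧
    ∫ y : ℝ, Complex.exp (-(L : ℂ) * (1 / 2 + ⟨0, y⟩)) * h s t u (-⟨0, y⟩) =
      2 * Real.pi * ((Real.exp (-(L / 2)) * Kn s (L + u) : ℝ) : ℂ) *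
        Complex.exp (t * L * Complex.I) := by
  have hs0 : (s : ℂ) ≠ 0 := by exact_mod_cast hs.ne'
  obtain ⟨g1, g2⟩ := gauss s hs (-(2 * s * t + (u + L) * Complex.I))
    (-(L / 2) - s * t ^ 2 - u * t * Complex.I)
  have e : (fun y : ℝ => Complex.exp (-(L : ℂ) * (1 / 2 + ⟨0, y⟩)) * h s t u (-⟨0, y⟩)) =
      fun y : ℝ => Complex.exp (-(s : ℂ) * (y : ℂ) ^ 2 + (-(2 * s * t + (u + L) * Complex.I)) * y +
        (-(L / 2) - s * t ^ 2 - u * t * Complex.I)) := by
    funext y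
    rw [h, ← Complex.exp_add, mk0]
    congr 1
    linear_combination ((s : ℂ) * (y + t) ^ 2) * Complex.I_sq
  rw [e]
  refine ⟨g1, ?_⟩
  rw [g2, sqrt_eq s hs, Kn]
  have e2 : (-(L / 2) - s * t ^ 2 - u * t * Complex.I : ℂ) +
      (-(2 * s * t + (u + L) * Complex.I)) ^ 2 / (4 * s) =
      ((-(L / 2) : ℝ) : ℂ) + ((-((L + u) ^ 2 / (4 * s)) : ℝ) : ℂ) + (t * L * Complex.I) := by
    push_cast
    have : (-(2 * (s : ℂ) * t + (u + L) * Complex.I)) ^ 2 =
        4 * s ^ 2 * t ^ 2 + 4 * s * t * (u + L) * Complex.I - (u + L) ^ 2 := by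
      linear_combination ((u : ℂ) + L) ^ 2 * Complex.I_sq
    rw [this]
    field_simp
    ring
  rw [e2, Complex.exp_add, Complex.exp_add, ← Complex.ofReal_exp, ← Complex.ofReal_exp]
  push_cast
  ring

theorem JJ_ev (s t u L : ℝ) (hs : 0 < s) : JJ (ev (h s t u)) L =
    2 * Real.pi * ((Real.exp (-(L / 2)) * Kn s (L - u) : ℝ) : ℂ) *
        Complex.exp (-(t * L * Complex.I)) +
      2 * Real.pi * ((Real.exp (-(L / 2)) * Kn s (L + u) : ℝ) : ℂ) *
        Complex.exp (t * L * Complex.I) := by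
  obtain ⟨i1, e1⟩ := four1 s t u L hs
  obtain ⟨i2, e2⟩ := four2 s t u L hs
  rw [← e1, ← e2, ← integral_add i1 i2]
  unfold JJ ev
  congr 1
  funext y
  ring

/-- the main term -/
theorem main_term (s t u : ℝ) (hs : 0 < s) :
    ∫ x : ℝ, (Kn s (x - u) : ℂ) * Complex.exp ((1 / 2 - t * Complex.I) * x) = h s t u (1 / 2) := by
  have hs0 : (s : ℂ) ≠ 0 := by exact_mod_cast hs.ne'
  have hq : (0 : ℝ) < 1 / (4 * s) := by positivity
  obtain ⟨g1, g2⟩ := gauss (1 / (4 * s)) hq (u / (2 * s) + (1 / 2 - t * Complex.I))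
    (-(u ^ 2 / (4 * s)))
  have e : (fun x : ℝ => (Kn s (x - u) : ℂ) * Complex.exp ((1 / 2 - t * Complex.I) * x)) =
      fun y : ℝ => ((Real.sqrt (4 * Real.pi * s))⁻¹ : ℂ) * Complex.exp (-((1 / (4 * s) : ℝ) : ℂ) * (y : ℂ) ^ 2 +
        (u / (2 * s) + (1 / 2 - t * Complex.I)) * y + (-(u ^ 2 / (4 * s)))) := by
    funext y
    rw [Kn, Complex.ofReal_div, Complex.ofReal_exp, div_mul_eq_mul_div, ← Complex.exp_add, div_eq_inv_mul]
    congr 2
    push_cast
    field_simp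
    ring
  rw [e, integral_const_mul, g2]
  have e1 : Real.pi / (1 / (4 * s)) = 4 * Real.pi * s := by
    field_simp
  rw [e1, ← mul_assoc, inv_mul_cancel₀, one_mul]
  · rw [h]
    congr 1
    push_cast
    field_simp
    ring
  · have : 0 < Real.sqrt (4 * Real.pi * s) := by positivity
    exact_mod_cast this.ne'

theorem kn_le (s u L : ℝ) (hs : 2 ≤ s) (hu : s ≤ u) (hL : 0 ≤ L) : Kn s (L + u) ≤ Real.exp (-L) := by
  have hs0 : 0 < s := by linarith
  have hpi := Real.pi_gt_three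
  have h1 : 1 ≤ Real.sqrt (4 * Real.pi * s) := by
    rw [Real.one_le_sqrt]
    nlinarith
  unfold Kn
  refine (div_le_self (Real.exp_pos _).le h1).trans ?_
  apply Real.exp_le_exp.2
  rw [neg_le_neg_iff, le_div_iff₀ (by positivity)]
  nlinarith [sq_nonneg (L - u), mul_le_mul_of_nonneg_left hu hL]

theorem kn_nonneg (s x : ℝ) : 0 ≤ Kn s x := by
  unfold Kn
  positivity

theorem exp_half (n : ℕ) (hn : 0 < n) : Real.exp (-(Real.log n / 2)) = 1 / Real.sqrt n := by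
  have h0 : (0 : ℝ) < n := by exact_mod_cast hn
  rw [Real.exp_neg, one_div, Real.sqrt_eq_rpow, Real.rpow_def_of_pos h0]
  congr 2
  ring

/-- the first sum -/
noncomputable def T1 (s t u : ℝ) (n : ℕ) : ℂ :=
  ((ArithmeticFunction.vonMangoldt n / Real.sqrt n * Kn s (Real.log n - u) : ℝ) : ℂ) *
    Complex.exp (-(t * Real.log n * Complex.I))

/-- the second sum -/
noncomputable def T2 (s t u : ℝ) (n : ℕ) : ℂ :=
  ((ArithmeticFunction.vonMangoldt n / Real.sqrt n * Kn s (Real.log n + u) : ℝ) : ℂ) *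
    Complex.exp (t * Real.log n * Complex.I)

theorem term_eq (s t u : ℝ) (hs : 0 < s) (n : ℕ) :
    Lam n * JJ (ev (h s t u)) (Real.log n) = 2 * Real.pi * (T1 s t u n + T2 s t u n) := by
  rcases Nat.eq_zero_or_pos n with h0 | h0
  · subst h0
    simp [T1, T2, Lam]
  · rw [JJ_ev s t u _ hs, exp_half n h0, T1, T2, Lam]
    push_cast
    ring

theorem T2_le (s t u : ℝ) (hs : 2 ≤ s) (hu : s ≤ u) (n : ℕ) :
    ‖T2 s t u n‖ ≤ ArithmeticFunction.vonMangoldt n * (n : ℝ) ^ (-(3 / 2 : ℝ)) := by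
  rcases Nat.eq_zero_or_pos n with h0 | h0
  · subst h0
    simp [T2]
  · have hn : (0 : ℝ) < n := by exact_mod_cast h0
    have e1 : (t * Real.log n * Complex.I : ℂ) = ((t * Real.log n : ℝ) : ℂ) * Complex.I := by
      push_cast
      ring
    rw [T2, norm_mul, e1, Complex.norm_exp_ofReal_mul_I, mul_one, Complex.norm_real, Real.norm_eq_abs,
      abs_of_nonneg (mul_nonneg (div_nonneg ArithmeticFunction.vonMangoldt_nonneg (Real.sqrt_nonneg _))
        (kn_nonneg _ _))]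
    have h1 := kn_le s u (Real.log n) hs hu (Real.log_natCast_nonneg n)
    have h2 : Real.exp (-Real.log n) = 1 / n := by
      rw [Real.exp_neg, Real.exp_log hn, one_div]
    rw [h2] at h1
    have h3 : (n : ℝ) ^ (-(3 / 2 : ℝ)) = 1 / Real.sqrt n * (1 / n) := by
      have e5 : (n : ℝ) ^ (-(3 / 2 : ℝ)) = (n : ℝ) ^ (-(1 / 2) : ℝ) * (n : ℝ) ^ (-1 : ℝ) := by
        rw [← Real.rpow_add hn]
        norm_num
      rw [e5, Real.rpow_neg_one, Real.rpow_neg hn.le, ← Real.sqrt_eq_rpow, one_div, one_div]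
    rw [h3, div_eq_mul_one_div, mul_assoc]
    apply mul_le_mul_of_nonneg_left _ ArithmeticFunction.vonMangoldt_nonneg
    apply mul_le_mul_of_nonneg_left h1
    positivity

theorem Lg_le (y t : ℝ) : Lg y ≤ Lg t * (1 + |y - t|) := by
  have h1 := Pool.Agent.Y23.one_le_Lg t
  have h2 : Lg y ≤ Lg t + |y - t| := by
    unfold Lg
    have h3 : 3 + |y| ≤ (3 + |t|) * Real.exp |y - t| := by
      have h4 : |y| ≤ |t| + |y - t| := by
        have := abs_sub_abs_le_abs_sub y t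
        linarith
      have h5 := Real.add_one_le_exp |y - t|
      have h6 : (3 + |t|) * (|y - t| + 1) ≤ (3 + |t|) * Real.exp |y - t| :=
        mul_le_mul_of_nonneg_left h5 (by positivity)
      nlinarith [abs_nonneg t, abs_nonneg (y - t)]
    calc Real.log (3 + |y|) ≤ Real.log ((3 + |t|) * Real.exp |y - t|) :=
          Real.log_le_log (by positivity) h3
      _ = Real.log (3 + |t|) + |y - t| := by
          rw [Real.log_mul (by positivity) (Real.exp_pos _).ne', Real.log_exp]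
  nlinarith [abs_nonneg (y - t)]

theorem arch (C : ℝ) (hC0 : 0 < C) (hC : ∀ y : ℝ, |DG y| ≤ C * Lg y) (s t u : ℝ) (hs : 2 ≤ s) :
    ‖∫ y : ℝ, (DG y : ℂ) * h s t u ⟨0, y⟩‖ ≤ 2 * C * Real.sqrt Real.pi * Lg t := by
  have hb : ∀ y : ℝ, ‖(DG y : ℂ) * h s t u ⟨0, y⟩‖ ≤ 2 * C * Lg t * Real.exp (-1 * (y - t) ^ 2) := by
    intro y
    have h1 := Pool.Agent.Y23.one_le_Lg t
    rw [norm_mul, h_norm, Complex.norm_real, Real.norm_eq_abs]
    have e1 : s * ((⟨0, y⟩ : ℂ).re ^ 2 - ((⟨0, y⟩ : ℂ).im - t) ^ 2) + u * (⟨0, y⟩ : ℂ).re =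
        -(s * (y - t) ^ 2) := by
      simp
    rw [e1]
    have h2 : |DG y| ≤ C * (Lg t * (1 + |y - t|)) :=
      (hC y).trans (mul_le_mul_of_nonneg_left (Lg_le y t) hC0.le)
    have h3 : Real.exp (-(s * (y - t) ^ 2)) ≤ Real.exp (-(2 * (y - t) ^ 2)) := by
      apply Real.exp_le_exp.2
      nlinarith [sq_nonneg (y - t)]
    have h4 : (1 + |y - t|) * Real.exp (-(2 * (y - t) ^ 2)) ≤ 2 * Real.exp (-1 * (y - t) ^ 2) := by
      have h5 := Real.add_one_le_exp ((y - t) ^ 2)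
      have h6 : 1 + |y - t| ≤ 2 * Real.exp ((y - t) ^ 2) := by
        nlinarith [sq_nonneg (|y - t| - 1), sq_abs (y - t)]
      have e2 : Real.exp (-1 * (y - t) ^ 2) = Real.exp ((y - t) ^ 2) * Real.exp (-(2 * (y - t) ^ 2)) := by
        rw [← Real.exp_add]
        congr 1
        ring
      rw [e2, ← mul_assoc]
      exact mul_le_mul_of_nonneg_right h6 (Real.exp_pos _).le
    calc |DG y| * Real.exp (-(s * (y - t) ^ 2))
        ≤ (C * (Lg t * (1 + |y - t|))) * Real.exp (-(2 * (y - t) ^ 2)) :=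
          mul_le_mul h2 h3 (Real.exp_pos _).le (by positivity)
      _ = C * Lg t * ((1 + |y - t|) * Real.exp (-(2 * (y - t) ^ 2))) := by ring
      _ ≤ C * Lg t * (2 * Real.exp (-1 * (y - t) ^ 2)) := by gcongr
      _ = _ := by ring
  have hi : Integrable (fun y : ℝ => 2 * C * Lg t * Real.exp (-1 * (y - t) ^ 2)) :=
    ((integrable_exp_neg_mul_sq one_pos).comp_sub_right t).const_mul _
  refine (norm_integral_le_of_norm_le hi (Eventually.of_forall hb)).trans (le_of_eq ?_)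
  rw [integral_const_mul, integral_sub_right_eq_self (fun y : ℝ => Real.exp (-1 * y ^ 2)) t,
    integral_gaussian]
  rw [div_one]
  ring

theorem ex : S_Ex := by
  obtain ⟨C, hC0, hC⟩ := Pool.Agent.Y23.DG_bd
  set B : ℝ := ∑' n : ℕ, ArithmeticFunction.vonMangoldt n * (n : ℝ) ^ (-(3 / 2 : ℝ)) with hB
  have hsm : Summable fun n : ℕ => ArithmeticFunction.vonMangoldt n * (n : ℝ) ^ (-(3 / 2 : ℝ)) :=
    H370.lam_summable
  have hB0 : 0 ≤ B := tsum_nonneg fun n => mul_nonneg ArithmeticFunction.vonMangoldt_nonneg (by positivity)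
  refine ⟨1 + 2 * C * Real.sqrt Real.pi + B, by positivity, ?_⟩
  intro s t u hs hu
  have hs0 : 0 < s := by linarith
  have hu0 : 0 ≤ u := by linarith
  have hδ : 0 < s / 2 := by positivity
  have hM : 0 ≤ Real.exp (s + u + s * t ^ 2) := (Real.exp_pos _).le
  have hdec := h_dec s t u hs0.le hu0
  have hexp := Pool.Agent.Y23.explicit hδ hM hdec
  have hLt := Pool.Agent.Y23.one_le_Lg t
  have hpi : (0 : ℝ) < 2 * Real.pi := by positivity
  have hpic : (2 * Real.pi : ℂ) ≠ 0 := by exact_mod_cast hpi.ne'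
  -- the sum over the zeros
  have eS : ∑' ρ : Zt, (mu ρ : ℂ) * h s t u ((ρ : ℂ) - 1 / 2) =
      Complex.exp (-(t * u * Complex.I)) * S s t u := by
    rw [S, ← tsum_mul_left]
    congr 1
    funext ρ
    rw [h, mul_left_comm, ← Complex.exp_add]
    congr 2
    ring
  -- the sums over the primes
  have hP := (Pool.Agent.Y23.prime_line hδ (by positivity) (Pool.Agent.Y23.ev_dec hdec)).summable
  simp only [term_eq s t u hs0] at hP
  have h2s : Summable (T2 s t u) := Summable.of_norm_bounded hsm (T2_le s t u hs hu)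
  have h12 : Summable (fun n => T1 s t u n + T2 s t u n) := by
    have := hP.mul_left (2 * Real.pi : ℂ)⁻¹
    refine this.congr fun n => ?_
    rw [← mul_assoc, inv_mul_cancel₀ hpic, one_mul]
  have h1s : Summable (T1 s t u) := by
    refine (h12.sub h2s).congr fun n => ?_
    ring
  have eP : ∑' n : ℕ, Lam n * JJ (ev (h s t u)) (Real.log n) =
      2 * Real.pi * (∑' n, T1 s t u n + ∑' n, T2 s t u n) := by
    simp only [term_eq s t u hs0]
    rw [tsum_mul_left, h1s.tsum_add h2s]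
  have eE : E s t u = ∑' n, T1 s t u n - h s t u (1 / 2) := by
    rw [E, main_term s t u hs0]
    rfl
  rw [eS, eP] at hexp
  have key : E s t u = -(Complex.exp (-(t * u * Complex.I)) * S s t u) + (h s t u (-(1 / 2)) +
      (2 * Real.pi : ℂ)⁻¹ * (∫ y : ℝ, (DG y : ℂ) * h s t u ⟨0, y⟩) - ∑' n, T2 s t u n) := by
    rw [eE]
    have h3 := congrArg (fun z => (2 * Real.pi : ℂ)⁻¹ * z) hexp
    have h4 : (2 * Real.pi : ℂ)⁻¹ * (2 * Real.pi) = 1 := inv_mul_cancel₀ hpic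
    linear_combination (exp := 1) h3 + (-(Complex.exp (-(t * u * Complex.I)) * S s t u) +
      (h s t u (1 / 2) + h s t u (-(1 / 2))) - (∑' n, T1 s t u n + ∑' n, T2 s t u n)) * h4
  have hn : ‖Complex.exp (-(t * u * Complex.I)) * S s t u‖ = ‖S s t u‖ := by
    have e1 : (-(t * u * Complex.I) : ℂ) = ((-(t * u) : ℝ) : ℂ) * Complex.I := by
      push_cast
      ring
    rw [norm_mul, e1, Complex.norm_exp_ofReal_mul_I, one_mul]
  set R : ℂ := h s t u (-(1 / 2)) +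
      (2 * Real.pi : ℂ)⁻¹ * (∫ y : ℝ, (DG y : ℂ) * h s t u ⟨0, y⟩) - ∑' n, T2 s t u n with hR
  have b1 : ‖h s t u (-(1 / 2))‖ ≤ 1 := by
    rw [h_norm]
    apply Real.exp_le_one_iff.2
    simp
    nlinarith [sq_nonneg t]
  have b2 : ‖(2 * Real.pi : ℂ)⁻¹ * (∫ y : ℝ, (DG y : ℂ) * h s t u ⟨0, y⟩)‖ ≤
      2 * C * Real.sqrt Real.pi * Lg t := by
    rw [norm_mul]
    have h5 : ‖(2 * Real.pi : ℂ)⁻¹‖ ≤ 1 := by
      rw [norm_inv, norm_mul, Complex.norm_real, Real.norm_eq_abs, abs_of_pos Real.pi_pos]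
      apply inv_le_one_of_one_le₀
      have := Real.pi_gt_three
      simp
      linarith
    calc _ ≤ 1 * (2 * C * Real.sqrt Real.pi * Lg t) :=
          mul_le_mul h5 (arch C hC0 hC s t u hs) (norm_nonneg _) zero_le_one
      _ = _ := one_mul _
  have b3 : ‖∑' n, T2 s t u n‖ ≤ B := tsum_of_norm_bounded hsm.hasSum (T2_le s t u hs hu)
  have bR : ‖R‖ ≤ (1 + 2 * C * Real.sqrt Real.pi + B) * Lg t := by
    have h6 : ‖R‖ ≤ ‖h s t u (-(1 / 2))‖ +
        ‖(2 * Real.pi : ℂ)⁻¹ * (∫ y : ℝ, (DG y : ℂ) * h s t u ⟨0, y⟩)‖ + ‖∑' n, T2 s t u n‖ := by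
      rw [hR]
      exact (norm_sub_le _ _).trans (add_le_add_left (norm_add_le _ _) _)
    nlinarith
  have hLg : Lg t = Real.log (3 + |t|) := rfl
  rw [← hLg]
  refine le_trans ?_ bR
  rw [key, ← hn, ← norm_neg (Complex.exp (-(t * u * Complex.I)) * S s t u)]
  refine (abs_norm_sub_norm_le _ _).trans (le_of_eq ?_)
  congr 1
  ring

end Pool.Agent.Q204.LV
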